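import Pool.Agent.KS6_38.Adm.Main

set_option autoImplicit false

/-!
# Admissible sets are substantially larger than the odd numbers at every large `N`

A set of positive integers is admissible if `a + b ∤ a b` for all distinct `a, b` in it; `f N` is the
largest size of an admissible subset of `{1, …, N}`.  We show `liminf f(N) / N > 1 / 2`, and that there
is an infinite admissible set of upper density larger than `1 / 2`.
-/

namespace Pool.Agent.Results.MP_923662_nt.AllLargeN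

open Filter Finset

/-- A set of positive integers is admissible if `a + b` does not divide `a b` for distinct elements
`a`, `b` of it. -/
def Admissible (A : Set ℕ) : Prop :=
  (∀ a ∈ A, 0 < a) ∧ ∀ a ∈ A, ∀ b ∈ A, a ≠ b → ¬ (a + b ∣ a * b)

/-- The sizes of the admissible subsets of `{1, …, N}`. -/
def Sizes (N : ℕ) : Set ℕ :=
  {k | ∃ A : Finset ℕ, A ⊆ Icc 1 N ∧ Admissible (A : Set ℕ) ∧ A.card = k}

/-- The largest size of an admissible subset of `{1, …, N}`. -/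
noncomputable def f (N : ℕ) : ℕ := sSup (Sizes N)

theorem sizes_bdd (N : ℕ) : ∀ k ∈ Sizes N, k ≤ N := by
  rintro k ⟨A, hA, -, rfl⟩
  simpa using card_le_card hA

theorem f_greatest (N : ℕ) : IsGreatest (Sizes N) (f N) := by
  have hb : BddAbove (Sizes N) := ⟨N, sizes_bdd N⟩
  exact ⟨Nat.sSup_mem ⟨0, ∅, by simp, ⟨by simp, by simp⟩, rfl⟩ hb, fun k hk => le_csSup hb hk⟩

/-- the squares of the large even numbers -/
theorem squares : ∃ δ : ℝ, 0 < δ ∧ ∃ m0 : ℕ, ∀ m : ℕ, m0 ≤ m → ∃ A : Finset ℕ,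
    A ⊆ Icc 1 ((2 * m) ^ 2) ∧ (∀ a ∈ A, ∀ b ∈ A, a ≠ b → ¬ (a + b ∣ a * b)) ∧
      (1 / 2 + δ) * ((2 * m) ^ 2 : ℕ) ≤ (A.card : ℝ) := by
  open Pool.Agent.KS6_38.Adm Pool.Agent.KS6_38.AdmMain in
  obtain ⟨i2, h2⟩ : ∃ i2 : ℕ, 3000000 ≤ i2 := ⟨_, le_rfl⟩
  obtain ⟨z1, hz1⟩ : ∃ z1, z1 = 2 ^ (ee i2 + 2) := ⟨_, rfl⟩
  obtain ⟨i0, h20, hz, hz'⟩ : ∃ i0 : ℕ, i2 ≤ i0 ∧ z1 < i0 ^ 2 ∧
      1000 * (2 * (z1 : ℝ) + 1300) ≤ MQ i0 := by
    refine ⟨i2 + 1000 * (2 * z1 + 1300), by omega, ?_, le_trans ?_ (MQ_ge _)⟩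
    · exact lt_of_lt_of_le (by omega) (Nat.le_self_pow two_ne_zero _)
    · have : 1000 * (2 * z1 + 1300) ≤ (i2 + 1000 * (2 * z1 + 1300)) ^ 2 :=
        le_trans (Nat.le_add_left _ _) (Nat.le_self_pow two_ne_zero _)
      exact_mod_cast this
  refine ⟨1 / 384 * Real.exp (-(0.01 * MQ i0) - 2 * z1 - 2), by positivity, ?_⟩
  set D : ℝ := ∏ p ∈ QQ i0, (p : ℝ) with hD
  have hD0 : 0 ≤ D := by positivity
  refine ⟨1 + 2 ^ ee i0 * 4 ^ (range (i0 + 1)).sup ee +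
      ⌈576 * D / Real.exp (-Sw z1 i0 - 1)⌉₊ + ⌈72 * D / Real.exp (-(0.19 * MQ i0))⌉₊, fun m hm0 => ?_⟩
  have m1 : 1 ≤ m := by omega
  have m3 : 2 ^ ee i0 * 4 ^ (range (i0 + 1)).sup ee ≤ m := by omega
  have m4 : 576 * D / Real.exp (-Sw z1 i0 - 1) ≤ m := (Nat.le_ceil _).trans (Nat.cast_le.2 (by omega))
  have m5 : 72 * D / Real.exp (-(0.19 * MQ i0)) ≤ m := (Nat.le_ceil _).trans (Nat.cast_le.2 (by omega))
  have hm : (1 : ℝ) ≤ m := by exact_mod_cast m1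
  have hmm : m ≤ (2 * m) ^ 2 := by nlinarith
  rw [div_le_iff₀ (Real.exp_pos _)] at m4 m5
  obtain ⟨A, a1, a2, a3⟩ := main z1 i2 i0 (2 * m) (2 * m ^ 2) h2 h20 hz1 hz hz' (by ring)
    (fun j hj => by
      refine le_trans (Nat.mul_le_mul_left _ (Nat.pow_le_pow_right (by norm_num) ?_)) (m3.trans hmm)
      exact (lt_ee_lev j).le.trans (le_sup (f := ee) (mem_range.2 (by omega))))
    (by omega)
    (by
      push_cast
      have := mul_le_mul_of_nonneg_left m4 (show (0 : ℝ) ≤ m / 6 by positivity)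
      nlinarith)
    (by
      push_cast
      have h1 := Real.exp_pos (-(0.19 * MQ i0))
      have h3 : (m : ℝ) * Real.exp (-(0.19 * MQ i0)) ≤ m ^ 2 * Real.exp (-(0.19 * MQ i0)) :=
        mul_le_mul_of_nonneg_right (by nlinarith) h1.le
      nlinarith)
  refine ⟨A, a1, a2, le_trans (le_of_eq ?_) a3⟩
  push_cast; ring

/-- all large `N` -/
theorem allN : ∃ ε : ℝ, 0 < ε ∧ ∃ N0 : ℕ, ∀ N : ℕ, N0 ≤ N → ∃ A : Finset ℕ,
    A ⊆ Icc 1 N ∧ (∀ a ∈ A, ∀ b ∈ A, a ≠ b → ¬ (a + b ∣ a * b)) ∧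
      (1 / 2 + ε) * N ≤ (A.card : ℝ) := by
  obtain ⟨δ, hδ, m0, h⟩ := squares
  refine ⟨δ / 2, by positivity, (2 * (m0 + ⌈3 * (1 + δ) / δ⌉₊ + 1)) ^ 2, fun N hN => ?_⟩
  obtain ⟨m, hm⟩ : ∃ m, m = Nat.sqrt N / 2 := ⟨_, rfl⟩
  have h1 : 2 * (m0 + ⌈3 * (1 + δ) / δ⌉₊ + 1) ≤ Nat.sqrt N := by
    rw [Nat.le_sqrt, ← sq]; exact hN
  have h2 : (2 * m) ^ 2 ≤ N := by
    have : 2 * m ≤ Nat.sqrt N := by omega
    rw [sq, ← Nat.le_sqrt]; exact this
  have h3 : N ≤ (2 * m + 2) ^ 2 := by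
    have h4 : Nat.sqrt N < 2 * m + 2 := by omega
    rw [Nat.sqrt_lt, ← sq] at h4
    exact h4.le
  have h5 : m0 + ⌈3 * (1 + δ) / δ⌉₊ + 1 ≤ m := by omega
  obtain ⟨A, a1, a2, a3⟩ := h m (by omega)
  refine ⟨A, a1.trans (Icc_subset_Icc_right h2), a2, le_trans ?_ a3⟩
  have h6 : 3 * (1 + δ) / δ ≤ m := (Nat.le_ceil _).trans (Nat.cast_le.2 (by omega))
  rw [div_le_iff₀ hδ] at h6
  have h7 : (N : ℝ) ≤ (2 * m + 2) ^ 2 := by exact_mod_cast h3
  have h8 : (1 : ℝ) ≤ m := by exact_mod_cast (by omega : 1 ≤ m)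
  have h9 : (1 / 2 + δ / 2) * (N : ℝ) ≤ (1 / 2 + δ / 2) * (2 * m + 2) ^ 2 :=
    mul_le_mul_of_nonneg_left h7 (by positivity)
  refine h9.trans ?_
  push_cast
  nlinarith [mul_le_mul_of_nonneg_right h6 (show (0 : ℝ) ≤ m by positivity), mul_nonneg hδ.le (sub_nonneg.2 h8)]

/-- an infinite admissible set -/
theorem infinite (ε : ℝ) (hε : 0 < ε) (N0 : ℕ) (h : ∀ N : ℕ, N0 ≤ N → ∃ A : Finset ℕ,
    A ⊆ Icc 1 N ∧ (∀ a ∈ A, ∀ b ∈ A, a ≠ b → ¬ (a + b ∣ a * b)) ∧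
      (1 / 2 + ε) * N ≤ (A.card : ℝ)) :
    ∃ A : Set ℕ, Admissible A ∧
      ∃ᶠ N : ℕ in atTop, (1 / 2 + ε / 2) * (N : ℝ) ≤ ((A ∩ Set.Icc 1 N).ncard : ℝ) := by
  classical
  obtain ⟨c, hc⟩ : ∃ c : ℕ, 2 / ε ≤ c := exists_nat_ge _
  choose! B b1 b2 b3 using h
  let s : ℕ → ℕ := fun k => Nat.rec (N0 + 1) (fun _ x => c * x ^ 2 + x + 1) k
  have s0 : s 0 = N0 + 1 := rfl
  have s1 : ∀ k, s (k + 1) = c * s k ^ 2 + s k + 1 := fun k => rfl
  have smono : StrictMono s := strictMono_nat_of_lt_succ fun k => by rw [s1]; omega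
  have sN : ∀ k, N0 ≤ s k := fun k => by
    have := smono.monotone (Nat.zero_le k)
    omega
  let A : Set ℕ := {a | ∃ k, a ∈ B (s (k + 1)) ∧ s k ^ 2 < a}
  refine ⟨A, ⟨?_, ?_⟩, ?_⟩
  · rintro a ⟨k, -, h2⟩; omega
  · have key : ∀ a b j k, j < k → a ∈ B (s (j + 1)) → s k ^ 2 < b → 0 < a → ¬ (a + b ∣ a * b) := by
      intro a b j k hjk ha hb ha0 hd
      have h1 : a ≤ s (j + 1) := (mem_Icc.1 (b1 (s (j + 1)) (sN (j + 1)) ha)).2
      have h2 : s (j + 1) ≤ s k := smono.monotone hjk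
      have h3 : a ^ 2 < b := lt_of_le_of_lt (Nat.pow_le_pow_left (h1.trans h2) 2) hb
      have h4 : a + b ∣ a ^ 2 := by
        have h5 : a + b ∣ a * b + a ^ 2 := ⟨a, by ring⟩
        exact (Nat.dvd_add_right hd).1 h5
      have := Nat.le_of_dvd (by positivity) h4
      omega
    rintro a ⟨j, hj1, hj2⟩ b ⟨k, hk1, hk2⟩ hab hd
    rcases lt_trichotomy j k with h | h | h
    · exact key a b j k h hj1 hk2 (by omega) hd
    · subst h
      exact b2 (s (j + 1)) (sN (j + 1)) a hj1 b hk1 hab hd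
    · exact key b a k j h hk1 hj2 (by omega) (by rwa [add_comm, mul_comm])
  · rw [frequently_atTop]
    intro M
    have h0 : M + 1 ≤ s (M + 1) := smono.id_le (M + 1)
    refine ⟨s (M + 1), by omega, ?_⟩
    have h1 : ((B (s (M + 1)) \ Icc 1 (s M ^ 2) : Finset ℕ) : Set ℕ) ⊆ A ∩ Set.Icc 1 (s (M + 1)) := by
      intro a ha
      have ha := mem_sdiff.1 (mem_coe.1 ha)
      have h2 := mem_Icc.1 (b1 (s (M + 1)) (sN (M + 1)) ha.1)
      have h3 : s M ^ 2 < a := by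
        by_contra hc
        exact ha.2 (mem_Icc.2 ⟨h2.1, by omega⟩)
      exact ⟨⟨M, ha.1, h3⟩, h2⟩
    have h2 := Set.ncard_le_ncard h1 ((Set.finite_Icc _ _).inter_of_right _)
    rw [Set.ncard_coe_finset] at h2
    have h3 := le_card_sdiff (Icc 1 (s M ^ 2)) (B (s (M + 1)))
    rw [Nat.card_Icc, Nat.add_sub_cancel] at h3
    have h4 : ((B (s (M + 1))).card : ℝ) ≤ ((A ∩ Set.Icc 1 (s (M + 1))).ncard : ℝ) + (s M ^ 2 : ℕ) := by
      exact_mod_cast (by omega : (B (s (M + 1))).card ≤ (A ∩ Set.Icc 1 (s (M + 1))).ncard + s M ^ 2)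
    have h5 := b3 (s (M + 1)) (sN (M + 1))
    have h6 : (2 : ℝ) * (s M ^ 2 : ℕ) ≤ ε * (s (M + 1) : ℕ) := by
      rw [div_le_iff₀ hε] at hc
      rw [s1]
      generalize s M = x
      push_cast
      have h7 : (0 : ℝ) ≤ (x : ℝ) ^ 2 := by positivity
      have h8 : (0 : ℝ) ≤ (x : ℝ) := Nat.cast_nonneg _
      nlinarith [mul_le_mul_of_nonneg_right hc h7, mul_nonneg hε.le h8]
    linarith

/-- **Admissible sets substantially larger than the odd numbers, at every large scale.**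
`f N` is the largest size of an admissible subset of `{1, …, N}`; `liminf f(N) / N > 1 / 2`, so for some
`ε > 0` one has `f N ≥ (1 / 2 + ε) N` for all sufficiently large `N`, and there is an infinite
admissible set which contains at least `(1 / 2 + ε) N` elements of `{1, …, N}` for infinitely many
`N`. -/
theorem result :
    (∀ N : ℕ, IsGreatest (Sizes N) (f N)) ∧
    (∃ ε : ℝ, 0 < ε ∧
      (∀ᶠ N : ℕ in atTop, (1 / 2 + ε) * (N : ℝ) ≤ (f N : ℝ)) ∧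
      ∃ A : Set ℕ, A.Infinite ∧ Admissible A ∧
        ∃ᶠ N : ℕ in atTop, (1 / 2 + ε) * (N : ℝ) ≤ ((A ∩ Set.Icc 1 N).ncard : ℝ)) ∧
    1 / 2 < liminf (fun N : ℕ => (f N : ℝ) / (N : ℝ)) atTop := by
  obtain ⟨ε, hε, N0, h⟩ := allN
  have h1 : ∀ᶠ N : ℕ in atTop, (1 / 2 + ε / 2) * (N : ℝ) ≤ (f N : ℝ) := by
    filter_upwards [eventually_ge_atTop N0] with N hN
    obtain ⟨A, a1, a2, a3⟩ := h N hN
    have h2 : A.card ≤ f N := (f_greatest N).2 ⟨A, a1, ⟨fun a ha => (mem_Icc.1 (a1 ha)).1, a2⟩, rfl⟩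
    have h3 : (A.card : ℝ) ≤ f N := by exact_mod_cast h2
    have h4 : (0 : ℝ) ≤ ε / 2 * N := by positivity
    linarith
  refine ⟨f_greatest, ⟨ε / 2, by positivity, h1, ?_⟩, ?_⟩
  · obtain ⟨A, hA, h2⟩ := infinite ε hε N0 h
    refine ⟨A, fun hfin => ?_, hA, h2⟩
    obtain ⟨N, hN1, hN2⟩ := (h2.and_eventually (eventually_gt_atTop (2 * A.ncard))).exists
    have h3 : (A ∩ Set.Icc 1 N).ncard ≤ A.ncard := Set.ncard_le_ncard Set.inter_subset_left hfin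
    have h4 : ((A ∩ Set.Icc 1 N).ncard : ℝ) ≤ A.ncard := by exact_mod_cast h3
    have h5 : (2 * A.ncard : ℝ) < N := by exact_mod_cast hN2
    have h6 : (0 : ℝ) ≤ ε / 2 * N := by positivity
    linarith
  · have h2 : 1 / 2 + ε / 2 ≤ liminf (fun N : ℕ => (f N : ℝ) / (N : ℝ)) atTop := by
      refine le_liminf_of_le ?_ ?_
      · refine IsBoundedUnder.isCoboundedUnder_ge ⟨1, ?_⟩
        rw [eventually_map]
        refine Eventually.of_forall fun N => ?_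
        have := sizes_bdd N _ (f_greatest N).1
        exact div_le_one_of_le₀ (by exact_mod_cast this) (by positivity)
      · filter_upwards [h1, eventually_gt_atTop 0] with N hN hN0
        rw [le_div_iff₀ (by exact_mod_cast hN0)]
        exact hN
    linarith

end Pool.Agent.Results.MP_923662_nt.AllLargeN
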